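import Pool.Agent.X72.LinP4.Main

/-!
# The linear Turán number of the linear path with four edges

The definitions are in `Pool/Agent/X72/LinP4/Defs.lean`.
-/

set_option autoImplicit false

namespace Pool.Agent.Results.MP_d43ba4_co.LinearTuranP4

open Pool.Agent.X72.LinP4

/-- Let `r ≥ 3`. A linear `r`-uniform hypergraph on `n` vertices without `P₄^r` has at most
`(r + 1) n / r` hyperedges, with equality if and only if the vertex set is partitioned into blocks
of size `r²`, each spanning a Steiner system `S(2, r, r²)`, and there are no other hyperedges. -/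
theorem result (r : ℕ) (hr : 3 ≤ r) {V : Type*} [Fintype V] [DecidableEq V]
    (E : Finset (Finset V)) (h1 : IsUniform r E) (h2 : IsLinear E) (h3 : ¬ ContainsP4 E) :
    (E.card : ℚ) ≤ (r + 1) * Fintype.card V / r ∧
      ((E.card : ℚ) = (r + 1) * Fintype.card V / r ↔ IsSteinerUnion r E) := by
  obtain ⟨m1, m2⟩ := main hr h1 h2 h3
  have hr0 : (0 : ℚ) < r := by exact_mod_cast (by omega : 0 < r)
  constructor
  · rw [le_div_iff₀ hr0, mul_comm]
    exact_mod_cast m1
  · rw [← m2, eq_div_iff hr0.ne', mul_comm]
    constructor
    · intro h; exact_mod_cast h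
    · intro h; exact_mod_cast h

end Pool.Agent.Results.MP_d43ba4_co.LinearTuranP4
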